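import Pool.Agent.Work.MP_a6e60d_ag.DefsFin
import Pool.Agent.Work.MP_a6e60d_ag.Main.LastFin

/-!
# MP_a6e60d_ag: a finite-dimensional model without a full semi-exceptional collection

Over the rational numbers, and over every field in which `-3` is not a square and some element is
not a cube, there are a smooth projective variety `X` and a smooth finite-dimensional DG algebra
`R` such that `Perf_dg(X)` and `Perf_dg(R)` are quasi-equivalent, while `Perf(X)` has no full
semi-exceptional collection.
-/

open CategoryTheory AlgebraicGeometry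

attribute [-instance] CategoryTheory.catToReflQuiver

namespace Pool.Agent.Results.MP_a6e60d_ag.FiniteDimensionalModel

open FdPerf

open FdDG (DGAlg QuasiEquivalent IsSmoothProj)

theorem result :
    (∃ (X : Scheme.{0}) (_ : X.Over (Spec (.of ℚ))), IsSmoothProj ℚ X ∧
      (∃ R : DGAlg.{0} ℚ, R.IsSmooth ∧ R.IsFinDim ∧ QuasiEquivalent (perfDG ℚ X) R.perf) ∧
      ¬ HasFullSemiExceptionalCollection ℚ X) ∧
    ∀ (k : Type) [Field k], ¬ IsSquare (-3 : k) → (∃ c : k, ∀ x : k, x ^ 3 ≠ c) →
      ∃ (X : Scheme.{0}) (_ : X.Over (Spec (.of k))), IsSmoothProj k X ∧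
        (∃ R : DGAlg.{0} k, R.IsSmooth ∧ R.IsFinDim ∧ QuasiEquivalent (perfDG k X) R.perf) ∧
        ¬ HasFullSemiExceptionalCollection k X :=
  ⟨exists_of_cube ℚ FdDG.not_isSquare_neg_three 2 Orl.Fld.Rat.cube_rat,
    fun k _ h3 ⟨c, hc⟩ => exists_of_cube k h3 c hc⟩

end Pool.Agent.Results.MP_a6e60d_ag.FiniteDimensionalModel
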